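import Mathlib

namespace Pool.Agent.Results.MP_60a09a_al.Two
open Finset Filter

section defs
variable {Γ : Type} [Group Γ]

/-- The ball of radius `r` for the word length. -/
def ball (S : Finset Γ) (r : ℕ) : Set Γ :=
  {x | ∃ l : List Γ, l.length ≤ r ∧ (∀ s ∈ l, s ∈ S) ∧ l.prod = x}

open Classical in
/-- The inner boundary. -/
noncomputable def bdry (S D : Finset Γ) : Finset Γ := D.filter fun x => ∃ s ∈ S, s * x ∉ D

/-- The Folner function, with value infinity if there is no such set. -/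
noncomputable def fol (S : Finset Γ) (n : ℕ) : ℕ∞ :=
  ⨅ (D : Finset Γ) (_ : D.Nonempty ∧ ((bdry S D).card : ℝ) / D.card ≤ 1 / n), (D.card : ℕ∞)
end defs

/-- The inverse of `x ↦ 2 ^ (x - 1)`, with infinity sent to infinity. -/
noncomputable def ginv (t : ℕ∞) : EReal :=
  if t = ⊤ then ⊤ else ((1 + Real.logb 2 t.toNat : ℝ) : EReal)

/-- The constant `K_g` for `g x = 2 ^ (x - 1)`. -/
noncomputable def K : EReal :=
  sInf {c | ∃ (Γ : Type) (_ : Group Γ) (S : Finset Γ), (∀ s ∈ S, s⁻¹ ∈ S) ∧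
    Subgroup.closure (S : Set Γ) = ⊤ ∧
    (∀ n : ℕ, 1 ≤ n → (2 : ℝ) ^ ((n : ℝ) - 1) ≤ (ball S (n - 1)).ncard) ∧
    c = liminf (fun n : ℕ => ginv (fol S n) / (n : EReal)) atTop}

section lower
variable {Γ : Type} [Group Γ] [DecidableEq Γ]

def out (E : Finset Γ) (g : Γ) : Finset Γ := E.filter fun x => g * x ∉ E

lemma out_mul (E : Finset Γ) (g h : Γ) :
    (out E (g * h)).card ≤ (out E g).card + (out E h).card := by
  have : out E (g * h) ⊆ (out E g).image (fun y => h⁻¹ * y) ∪ out E h := by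
    intro x hx
    simp only [out, mem_filter, mem_union, mem_image] at hx ⊢
    by_cases h1 : h * x ∈ E
    · exact Or.inl ⟨h * x, ⟨h1, by rw [← mul_assoc]; exact hx.2⟩, by simp⟩
    · exact Or.inr ⟨hx.1, h1⟩
  exact (card_le_card this).trans ((card_union_le _ _).trans
    (Nat.add_le_add_right card_image_le _))

lemma out_inv (E : Finset Γ) (g : Γ) : (out E g).card = (out E g⁻¹).card := by
  have h1 := card_filter_add_card_filter_not (s := E) (fun x => g * x ∈ E)
  have h2 := card_filter_add_card_filter_not (s := E) (fun x => g⁻¹ * x ∈ E)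
  have h3 : (E.filter fun x => g * x ∈ E).card = (E.filter fun x => g⁻¹ * x ∈ E).card :=
    card_nbij' (fun x => g * x) (fun x => g⁻¹ * x) (fun x hx => by simp_all)
      (fun x hx => by simp_all) (fun x _ => by simp) (fun x _ => by simp)
  unfold out
  omega

lemma step {S : Finset Γ} (hS : ∀ s ∈ S, s⁻¹ ∈ S) (D : Finset Γ) {s : Γ} (hs : s ∈ S) :
    (out D s).card + (out (D \ bdry S D) s).card ≤ (bdry S D).card := by
  rw [out_inv D, ← card_image_of_injective (out (D \ bdry S D) s) (mul_right_injective s),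
    ← card_union_of_disjoint]
  · refine card_le_card fun y hy => ?_
    simp only [out, bdry, mem_union, mem_filter, mem_image, Finset.mem_sdiff] at hy ⊢
    rcases hy with h | ⟨x, ⟨⟨hx, h1⟩, h2⟩, rfl⟩
    · exact ⟨h.1, _, hS s hs, h.2⟩
    · have : s * x ∈ D := by
        by_contra h
        exact h1 ⟨hx, s, hs, h⟩
      by_contra h
      exact h2 ⟨this, h⟩
  · rw [disjoint_left]
    intro y hy hy'
    simp only [out, mem_filter, mem_image, Finset.mem_sdiff] at hy hy'
    obtain ⟨x, ⟨⟨hx, -⟩, -⟩, rfl⟩ := hy'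
    exact hy.2 (by simpa using hx)

lemma word {S : Finset Γ} (hS : ∀ s ∈ S, s⁻¹ ∈ S) (D : Finset Γ) (l : List Γ)
    (hl : ∀ s ∈ l, s ∈ S) :
    (out D l.prod).card + (out (D \ bdry S D) l.prod).card ≤ l.length * (bdry S D).card := by
  induction l with
  | nil =>
    have : ∀ E : Finset Γ, out E 1 = ∅ := fun E => by simp [out]
    simp [this]
  | cons a l ih =>
    have h1 := ih fun s hs => hl s (List.mem_cons_of_mem _ hs)
    have h2 := step hS D (hl a List.mem_cons_self)
    have h3 := out_mul D a l.prod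
    have h4 := out_mul (D \ bdry S D) a l.prod
    rw [List.prod_cons, List.length_cons, add_mul]
    omega

lemma avg (B E : Finset Γ) : B.card * E.card ≤ ∑ g ∈ B, (out E g).card + E.card * E.card := by
  have h1 : ∑ g ∈ B, (E.filter fun x => g * x ∈ E).card ≤ E.card * E.card := by
    simp only [card_filter]
    rw [sum_comm]
    refine (sum_le_card_nsmul _ _ E.card fun x _ => ?_).trans (by simp)
    rw [← card_filter]
    exact card_le_card_of_injOn (fun g => g * x) (fun g hg => by simp_all)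
      (fun a _ b _ h => mul_right_cancel h)
  have h2 : ∑ g ∈ B, ((E.filter fun x => g * x ∈ E).card + (out E g).card) = B.card * E.card := by
    unfold out
    rw [sum_congr rfl fun g _ => card_filter_add_card_filter_not (s := E) (fun x => g * x ∈ E)]
    simp
  rw [sum_add_distrib] at h2
  omega

lemma lower {S : Finset Γ} (hS : ∀ s ∈ S, s⁻¹ ∈ S) {m : ℕ}
    (hg : 4 ^ m ≤ (ball S (2 * m)).ncard) {D : Finset Γ} (hD : D.Nonempty)
    (h : (m + 1) * (bdry S D).card ≤ D.card) : 4 ^ m ≤ 2 * (m + 1) * D.card := by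
  have hfin : (ball S (2 * m)).Finite := Set.finite_of_ncard_pos (lt_of_lt_of_le (by positivity) hg)
  rw [Set.ncard_eq_toFinset_card _ hfin] at hg
  set B := hfin.toFinset
  have h1 := avg B D
  have h2 := avg B (D \ bdry S D)
  have h3 : ∑ g ∈ B, ((out D g).card + (out (D \ bdry S D) g).card) ≤
      B.card * (2 * m * (bdry S D).card) := by
    refine (sum_le_card_nsmul _ _ (2 * m * (bdry S D).card) fun g hg => ?_).trans (by simp)
    obtain ⟨l, h1, h2, rfl⟩ := hfin.mem_toFinset.1 hg
    exact (word hS D l h2).trans (Nat.mul_le_mul_right _ h1)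
  rw [sum_add_distrib] at h3
  have h4 : (D \ bdry S D).card + (bdry S D).card = D.card :=
    card_sdiff_add_card_eq_card (by unfold bdry; convert filter_subset _ _)
  have h5 := hD.card_pos
  generalize (D \ bdry S D).card = e at *
  generalize (bdry S D).card = b at *
  generalize D.card = d at *
  generalize B.card = β at *
  have h6 : e * e ≤ d * d := Nat.mul_le_mul (by omega) (by omega)
  have h7 : β * (2 * d) ≤ β * ((2 * m + 1) * b) + 2 * (d * d) := by
    have : β * d = β * e + β * b := by rw [← h4]; ring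
    nlinarith
  have h8 : (m + 1) * (β * ((2 * m + 1) * b)) ≤ β * (2 * m + 1) * d := by
    calc _ = β * (2 * m + 1) * ((m + 1) * b) := by ring
      _ ≤ _ := Nat.mul_le_mul_left _ h
  have h9 : β * d ≤ 2 * (m + 1) * d * d := by nlinarith [Nat.mul_le_mul_left (m + 1) h7]
  exact hg.trans (Nat.le_of_mul_le_mul_right h9 h5)
end lower

lemma ball_finite {Γ : Type} [Group Γ] (S : Finset Γ) (r : ℕ) : (ball S r).Finite := by
  refine ((List.finite_length_le S r).image fun l => (l.map Subtype.val).prod).subset ?_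
  rintro _ ⟨l, h1, h2, rfl⟩
  exact ⟨l.attachWith _ h2, by simpa using h1, by simp⟩

lemma tend (c d : ℝ) : Tendsto (fun n : ℕ => (((2 * n + c + d * Real.logb 2 n) / n : ℝ) : EReal))
    atTop (nhds 2) := by
  have h1 : Tendsto (fun n : ℕ => Real.logb 2 n / n) atTop (nhds 0) :=
    (Real.isLittleO_logb_id_atTop.tendsto_div_nhds_zero).comp tendsto_natCast_atTop_atTop
  have h2 := ((tendsto_const_div_atTop_nhds_zero_nat c).add (h1.const_mul d)).const_add 2
  have h3 : Tendsto (fun n : ℕ => ((2 * n + c + d * Real.logb 2 n) / n : ℝ)) atTop (nhds 2) := by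
    simp only [mul_zero, add_zero] at h2
    refine h2.congr' ((eventually_gt_atTop 0).mono fun n hn => ?_)
    have : (n : ℝ) ≠ 0 := by positivity
    field_simp
    ring
  exact (continuous_coe_real_ereal.tendsto 2).comp h3

lemma ginv_nat (k : ℕ) : ginv k = ((1 + Real.logb 2 k : ℝ) : EReal) := by simp [ginv]

lemma two_le {Γ : Type} [Group Γ] {S : Finset Γ} (hS : ∀ s ∈ S, s⁻¹ ∈ S)
    (hg : ∀ n : ℕ, 1 ≤ n → (2 : ℝ) ^ ((n : ℝ) - 1) ≤ (ball S (n - 1)).ncard) :
    2 ≤ liminf (fun n : ℕ => ginv (fol S n) / (n : EReal)) atTop := by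
  classical
  rw [← (tend (-2) (-1)).liminf_eq]
  refine liminf_le_liminf ((eventually_gt_atTop 0).mono fun n hn => ?_)
  obtain ⟨m, rfl⟩ := Nat.exists_eq_succ_of_ne_zero hn.ne'
  rw [EReal.coe_div, EReal.coe_natCast]
  refine EReal.div_le_div_right_of_nonneg (by positivity) ?_
  have h1 : 4 ^ m ≤ (ball S (2 * m)).ncard := by
    have := hg (2 * m + 1) (by omega)
    rw [show ((2 * m + 1 : ℕ) : ℝ) - 1 = (2 * m : ℕ) by push_cast; ring, Real.rpow_natCast,
      pow_mul] at this
    norm_num at this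
    exact_mod_cast this
  have h2 : ((⌈(4 : ℝ) ^ m / (2 * (m + 1))⌉₊ : ℕ) : ℕ∞) ≤ fol S (m + 1) := by
    refine le_iInf₂ fun D hD => Nat.cast_le.2 (Nat.ceil_le.2 ?_)
    have h3 : (0 : ℝ) < D.card := by exact_mod_cast hD.1.card_pos
    have h4 := hD.2
    rw [div_le_div_iff₀ h3 (by positivity), one_mul, mul_comm] at h4
    rw [div_le_iff₀ (by positivity), mul_comm]
    exact_mod_cast lower hS h1 hD.1 (by exact_mod_cast h4)
  rcases eq_or_ne (fol S (m + 1)) ⊤ with h | h
  · simp [ginv, h]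
  obtain ⟨k, hk⟩ := ENat.ne_top_iff_exists.1 h
  rw [Nat.succ_eq_add_one, ← hk, ginv_nat, EReal.coe_le_coe_iff]
  rw [← hk, Nat.cast_le, Nat.ceil_le] at h2
  have h5 := Real.logb_le_logb_of_le one_lt_two (by positivity) h2
  rw [Real.logb_div (by positivity) (by positivity), Real.logb_mul (by positivity) (by positivity),
    show (4 : ℝ) = 2 ^ 2 by norm_num, ← pow_mul, Real.logb_pow, Real.logb_self_eq_one one_lt_two]
    at h5
  push_cast at h5 ⊢
  linarith

/-- The lamplighter group. -/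
@[ext] structure L where
  f : Finset ℤ
  k : ℤ
deriving DecidableEq

def sh (l : ℤ) (A : Finset ℤ) : Finset ℤ := A.map (Equiv.addRight l).toEmbedding

@[simp] lemma mem_sh (l i : ℤ) (A : Finset ℤ) : i ∈ sh l A ↔ i - l ∈ A := by
  simp [sh, sub_eq_add_neg]

instance : Mul L := ⟨fun x y => ⟨symmDiff y.f (sh y.k x.f), x.k + y.k⟩⟩
instance : One L := ⟨⟨∅, 0⟩⟩
instance : Inv L := ⟨fun x => ⟨sh (-x.k) x.f, -x.k⟩⟩
@[simp] lemma mul_f (x y : L) : (x * y).f = symmDiff y.f (sh y.k x.f) := rfl
@[simp] lemma mul_k (x y : L) : (x * y).k = x.k + y.k := rfl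
@[simp] lemma one_f : (1 : L).f = ∅ := rfl
@[simp] lemma one_k : (1 : L).k = 0 := rfl
@[simp] lemma inv_f (x : L) : (x⁻¹).f = sh (-x.k) x.f := rfl
@[simp] lemma inv_k (x : L) : (x⁻¹).k = -x.k := rfl

instance : Group L := Group.ofLeftAxioms
  (fun x y z => by
    ext i
    · simp only [mul_f, mul_k, Finset.mem_symmDiff, mem_sh, show i - (y.k + z.k) = i - z.k - y.k by ring]
      tauto
    · simp [add_assoc])
  (fun x => by ext i <;> simp [Finset.mem_symmDiff])
  (fun x => by ext i <;> simp [Finset.mem_symmDiff])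

def t : L := ⟨∅, 1⟩
def u : L := ⟨{0}, 1⟩
def S : Finset L := {t, u, t⁻¹, u⁻¹}

lemma gen : Subgroup.closure (S : Set L) = ⊤ := by
  have ht : t ∈ Subgroup.closure (S : Set L) := Subgroup.subset_closure (by simp [S])
  have hu : u ∈ Subgroup.closure (S : Set L) := Subgroup.subset_closure (by simp [S])
  have h0 : ∀ k : ℤ, (⟨∅, k⟩ : L) ∈ Subgroup.closure (S : Set L) := by
    intro k
    induction k using Int.induction_on with
    | zero => exact one_mem _
    | succ i ih => convert mul_mem ht ih using 1; ext <;> simp [t, Finset.mem_symmDiff, add_comm]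
    | pred i ih =>
      convert mul_mem (inv_mem ht) ih using 1; ext <;> simp [t, Finset.mem_symmDiff]; ring
  rw [eq_top_iff]
  rintro ⟨A, k⟩ -
  induction A using Finset.induction_on generalizing k with
  | empty => exact h0 k
  | insert j A hj ih =>
    convert mul_mem (h0 (k - 1 - j)) (mul_mem hu (ih j)) using 1
    ext i
    · simp only [mul_f, mul_k, u, Finset.mem_symmDiff, mem_sh, mem_insert, mem_singleton,
        notMem_empty, sub_eq_zero]
      by_cases h : i = j <;> simp [h, hj]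
    · simp [u]

lemma grow (r : ℕ) : ∀ A ⊆ Ico (0 : ℤ) r, (⟨A, r⟩ : L) ∈ ball S r := by
  induction r with
  | zero =>
    intro A hA
    refine ⟨[], le_rfl, by simp, ?_⟩
    simp at hA
    ext <;> simp [hA]
  | succ r ih =>
    intro A hA
    obtain ⟨l, h1, h2, h3⟩ := ih (A.erase r) fun i hi => by
      have := hA (mem_of_mem_erase hi)
      have := ne_of_mem_erase hi
      simp at *
      omega
    by_cases h : (r : ℤ) ∈ A
    · refine ⟨u :: l, by simpa using h1, by simpa [S] using h2, ?_⟩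
      rw [List.prod_cons, h3]
      ext i
      · simp only [mul_f, u, Finset.mem_symmDiff, mem_sh, mem_erase, mem_singleton, sub_eq_zero]
        by_cases h' : i = r <;> simp [h, h']
      · simp [u, add_comm]
    · refine ⟨t :: l, by simpa using h1, by simpa [S] using h2, ?_⟩
      rw [List.prod_cons, h3]
      ext i <;> simp [t, Finset.mem_symmDiff, erase_eq_of_notMem h, add_comm]

noncomputable def box (m : ℕ) (T : Finset ℤ) : Finset L :=
  ((Ico (0 : ℤ) m).powerset ×ˢ T).image fun p => ⟨p.1, p.2⟩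

lemma card_box (m : ℕ) (T : Finset ℤ) : (box m T).card = 2 ^ m * T.card := by
  rw [box, card_image_of_injective _ fun p q h => Prod.ext (congrArg L.f h) (congrArg L.k h)]
  simp

lemma mem_box (m : ℕ) (T : Finset ℤ) (x : L) : x ∈ box m T ↔ x.f ⊆ Ico (0 : ℤ) m ∧ x.k ∈ T := by
  simp only [box, mem_image, mem_product, mem_powerset]
  exact ⟨by rintro ⟨p, h, rfl⟩; exact h, fun h => ⟨(x.f, x.k), h, rfl⟩⟩

lemma bdry_box (m : ℕ) : bdry S (box m (Icc 0 m)) ⊆ box m {0, (m : ℤ)} := by
  intro x hx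
  simp only [bdry, mem_filter, mem_box, mem_insert, mem_singleton, mem_Icc] at hx ⊢
  obtain ⟨⟨h1, h2⟩, s, hs, h3⟩ := hx
  refine ⟨h1, by_contra fun h4 => h3 ?_⟩
  simp only [S, mem_insert, mem_singleton] at hs
  refine ⟨fun i hi => ?_, by rcases hs with rfl | rfl | rfl | rfl <;> simp [t, u] <;> omega⟩
  by_cases h5 : i ∈ x.f
  · exact h1 h5
  · rcases hs with rfl | rfl | rfl | rfl <;> simp [t, u, Finset.mem_symmDiff, h5] at hi ⊢ <;> omega

theorem result : K = 2 := by
  have hS : ∀ s ∈ S, s⁻¹ ∈ S := by simp [S]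
  have hg : ∀ n : ℕ, 1 ≤ n → (2 : ℝ) ^ ((n : ℝ) - 1) ≤ (ball S (n - 1)).ncard := by
    intro n hn
    obtain ⟨r, rfl⟩ := Nat.exists_eq_add_of_le' hn
    have h1 : (box r {(r : ℤ)} : Set L) ⊆ ball S r := by
      rintro ⟨A, k⟩ hx
      obtain ⟨h1, h2⟩ := (mem_box _ _ _).1 hx
      obtain rfl : k = r := by simpa using h2
      exact grow r A h1
    have h2 := Set.ncard_le_ncard h1 (ball_finite S r)
    rw [Set.ncard_coe_finset, card_box] at h2
    simp only [Nat.cast_add, Nat.cast_one, add_sub_cancel_right, Real.rpow_natCast,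
      add_tsub_cancel_right]
    simp only [card_singleton, mul_one] at h2
    exact_mod_cast h2
  have h0 : K ≤ liminf (fun n : ℕ => ginv (fol S n) / (n : EReal)) atTop :=
    sInf_le ⟨L, inferInstance, S, hS, gen, hg, rfl⟩
  refine le_antisymm (h0.trans ?_) (le_sInf ?_)
  · rw [← (tend 1 1).liminf_eq]
    refine liminf_le_liminf ((eventually_gt_atTop 0).mono fun n hn => ?_)
    obtain ⟨m, rfl⟩ := Nat.exists_eq_succ_of_ne_zero hn.ne'
    rw [EReal.coe_div, EReal.coe_natCast]
    refine EReal.div_le_div_right_of_nonneg (by positivity) ?_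
    have hc : (box (2 * m + 1) (Icc 0 (2 * m + 1 : ℕ))).card = 2 ^ (2 * m + 1) * (2 * m + 2) := by
      rw [card_box, Int.card_Icc]
      congr 1
    have h1 : fol S (m + 1) ≤ (2 ^ (2 * m + 1) * (2 * m + 2) : ℕ) := by
      rw [← hc]
      refine iInf₂_le _ ⟨card_pos.1 (by rw [hc]; positivity), ?_⟩
      have h2 := card_le_card (bdry_box (2 * m + 1))
      have h3 : ({0, ((2 * m + 1 : ℕ) : ℤ)} : Finset ℤ).card ≤ 2 := card_le_two
      rw [card_box] at h2
      have h4 := h2.trans (Nat.mul_le_mul_left _ h3)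
      rw [hc, div_le_div_iff₀ (by positivity) (by positivity)]
      have h5 := Nat.mul_le_mul_right (m + 1) h4
      have h6 : 2 ^ (2 * m + 1) * 2 * (m + 1) = 1 * (2 ^ (2 * m + 1) * (2 * m + 2)) := by ring
      rw [h6] at h5
      exact_mod_cast h5
    have h2 : ((1 : ℕ) : ℕ∞) ≤ fol S (m + 1) :=
      le_iInf₂ fun D hD => Nat.cast_le.2 hD.1.card_pos
    obtain ⟨k, hk⟩ := ENat.ne_top_iff_exists.1 (ne_top_of_le_ne_top (ENat.natCast_ne_top _) h1)
    rw [Nat.succ_eq_add_one, ← hk, ginv_nat, EReal.coe_le_coe_iff]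
    rw [← hk, Nat.cast_le] at h1 h2
    have h3 : (k : ℝ) ≤ 2 ^ (2 * m + 2) * (m + 1) := by
      have : (k : ℝ) ≤ 2 ^ (2 * m + 1) * (2 * m + 2) := by exact_mod_cast h1
      linarith [show (2 : ℝ) ^ (2 * m + 1) * (2 * m + 2) = 2 ^ (2 * m + 2) * (m + 1) by ring]
    have h5 := Real.logb_le_logb_of_le one_lt_two (by exact_mod_cast h2) h3
    rw [Real.logb_mul (by positivity) (by positivity), Real.logb_pow,
      Real.logb_self_eq_one one_lt_two] at h5
    push_cast at h5 ⊢
    linarith
  · rintro _ ⟨Γ, _, S, h1, -, h2, rfl⟩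
    exact two_le h1 h2

end Pool.Agent.Results.MP_60a09a_al.Two
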